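import Pool.Agent.K7.H59.SC.D

/-!
# Two truncated hypergeometric sums modulo `p^(r+4)` (problem MP_c42a9c_nt, Q1, in full)

For every odd prime `p` and every `r ≥ 1` the sums
`A = ∑_{k ≤ (p^r-1)/2} (4k+1) (1/2)_k^4 / k!^4` and
`B = ∑_{k < p^r} (3k+1) (1/2)_k^3 2^(2k) / k!^3` are congruent modulo `p^(r+4)`.

Sketch. Put `N = p^r = 2R+1`; all `N/m`, `0 < m < N`, are divisible by `p`.
1. `A = N^2 c_R ∑_{k ≤ R} c_k / (N-2k)` with `c_k = ((1/2)_k/k!)^2` (a telescoping certificate), and the same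
   sum with `(-1)^k C(R,k) C(R+k,k)` instead of `c_k` is a product. The difference is modulo `p^4` a sum with
   weights `(-1)^k C(R,k) C(R+k,k)`, evaluated by the identity
   `∑_{0<k≤n} (-1)^k C(n,k) C(n+k,k) O_k^(2)/k = -2 ∑_{0<m≤n} O_m/m^2`.
2. `B` is by a WZ pair a product times `∑_r w(N,r)`, `w` a product which is `-2 (N/2r)^2 (1+O(p))`.
3. Both `A/N` and `B/N` are now expressed modulo `p^4` by sums of weight at most three in `N/m`; their
   difference vanishes by the reflection and parity relations of the helper `Pool.Agent.Helper857.W6`.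
-/

set_option autoImplicit false

namespace Pool.Agent.Results.MP_c42a9c_nt.Full

open Finset Pool.Agent.Helper857.Pad Pool.Agent.K7.H59.SC

/-- the rising factorial `(x)_k = x (x+1) ... (x+k-1)` -/
def rising (x : ℚ) (k : ℕ) : ℚ := ∏ i ∈ range k, (x + (i : ℚ))

/-- `A_r(p)` -/
def A (p r : ℕ) : ℚ :=
  ∑ k ∈ range ((p ^ r - 1) / 2 + 1), (4 * (k : ℚ) + 1) * (rising (1 / 2) k ^ 4 / (k.factorial : ℚ) ^ 4)

/-- `B_r(p)` -/
def B (p r : ℕ) : ℚ :=
  ∑ k ∈ range (p ^ r), (3 * (k : ℚ) + 1) * (rising (1 / 2) k ^ 3 / (k.factorial : ℚ) ^ 3) * 2 ^ (2 * k)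

/-- `a ≡ b (mod p^m)`: the denominator of `(a - b)/p^m` is prime to `p` -/
def CongMod (p m : ℕ) (a b : ℚ) : Prop := Nat.Coprime ((a - b) / (p : ℚ) ^ m).den p

lemma rising_half (k : ℕ) : rising (1/2) k / (k.factorial : ℚ) = ∏ i ∈ range k, ((2*(i:ℚ)+1)/(2*i+2)) := by
  induction k with
  | zero => simp [rising]
  | succ k ih =>
    rw [prod_range_succ, ← ih]
    unfold rising
    rw [prod_range_succ, Nat.factorial_succ]
    have h1 : (k.factorial : ℚ) ≠ 0 := by exact_mod_cast k.factorial_ne_zero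
    have h2 : (k:ℚ)+1 ≠ 0 := by positivity
    have h3 : 2*(k:ℚ)+2 = 2*(k+1) := by ring
    rw [h3]
    push_cast
    field_simp
    ring

/-- For every odd prime `p` and every `r ≥ 1`, `A_r(p) ≡ B_r(p) (mod p^(r+4))`. -/
theorem result : ∀ p : ℕ, p.Prime → p ≠ 2 → ∀ r : ℕ, 1 ≤ r → CongMod p (r + 4) (A p r) (B p r) := by
  intro p hpp hp2 r hr
  have hp : Fact p.Prime := ⟨hpp⟩
  have hodd : p % 2 = 1 := by
    rcases hpp.eq_two_or_odd with h | h
    · exact absurd h hp2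
    · exact h
  have hpa : (p^r) % 2 = 1 := Nat.odd_iff.mp (Nat.odd_iff.mpr hodd).pow
  obtain ⟨R, hR⟩ : ∃ R, 2*R+1 = p^r := ⟨p^r/2, by omega⟩
  have hp0 : (p:ℚ) ≠ 0 := by exact_mod_cast hpp.ne_zero
  have hA : A p r = (p:ℚ)^r * TA R := by
    unfold A TA
    rw [show (p^r - 1)/2 + 1 = R + 1 by omega, hR]
    push_cast
    rw [mul_div_cancel₀ _ (pow_ne_zero r hp0)]
    apply sum_congr rfl
    intro k _
    congr 1
    rw [← div_pow, rising_half]
    unfold cc
    rw [prod_pow]; ring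
  have hB : B p r = (p:ℚ)^r * TB R := by
    unfold B TB
    rw [hR]
    push_cast
    rw [mul_div_cancel₀ _ (pow_ne_zero r hp0)]
    apply sum_congr rfl
    intro k _
    rw [← div_pow, rising_half]
    unfold tb
    rw [pow_mul]
    norm_num
    ring
  have hm := main (p := p) hr hR hp2
  obtain ⟨y, hy, e⟩ := hm
  unfold CongMod
  have e2 : (A p r - B p r) / (p:ℚ)^(r+4) = y := by
    rw [hA, hB, ← mul_sub, e, pow_add, ← mul_assoc]
    exact mul_div_cancel_left₀ y (mul_ne_zero (pow_ne_zero r hp0) (pow_ne_zero 4 hp0))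
  rw [e2]
  rw [mem_Zp] at hy
  exact ((Nat.Prime.coprime_iff_not_dvd hpp).mpr hy).symm

end Pool.Agent.Results.MP_c42a9c_nt.Full
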